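import Mathlib
import Pool.Agent.Y891.CTK.Sub

/-!
# Local indices of `y² = x³ - 1`

Adapted from `Pool.Agent.Y350.CTK.Loc`.
-/

set_option autoImplicit false

open scoped Classical

namespace Pool.Agent.W2helper93.TQ

open WithZero
open Pool.Agent.Y696 (NonsingRed)
open WeierstrassCurve.Affine (Point)

/-- the curve `y² = x³ - 1` over a field -/
abbrev Ec (L : Type) [CommRing L] : WeierstrassCurve L := ⟨0, 0, 0, 0, -1⟩

section val

variable {L : Type} [Field L] {v : Valuation L ℤᵐ⁰}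

theorem lt_exp_iff {a : ℤᵐ⁰} {k : ℤ} : a < exp (k + 1) ↔ a ≤ exp k := by
  rw [exp_add]
  exact lt_mul_exp_iff_le exp_ne_zero

theorem lt_one_iff {a : ℤᵐ⁰} : a < 1 ↔ a ≤ exp (-1 : ℤ) := by
  rw [← lt_exp_iff]
  simp

theorem m1l {a b : ℤᵐ⁰} (ha : a ≤ 1) (hb : b < 1) : a * b < 1 :=
  lt_of_le_of_lt ((mul_le_mul' ha le_rfl).trans (one_mul b).le) hb

theorem m2l {a b : ℤᵐ⁰} (ha : a < 1) (hb : b ≤ 1) : a * b < 1 := by
  rw [mul_comm]
  exact m1l hb ha

theorem vmul {x y : L} {a b : ℤ} (hx : v x ≤ exp a) (hy : v y ≤ exp b) :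
    v (x * y) ≤ exp (a + b) := by
  rw [map_mul, exp_add]
  exact mul_le_mul' hx hy

theorem vpow {x : L} {a : ℤ} (hx : v x ≤ exp a) (n : ℕ) : v (x ^ n) ≤ exp ((n : ℤ) * a) := by
  induction n with
  | zero => simp
  | succ n ih =>
    rw [pow_succ]
    refine (vmul ih hx).trans (le_of_eq ?_)
    congr 1
    push_cast
    ring

theorem vle {x : L} {a b : ℤ} (hx : v x ≤ exp a) (h : a ≤ b) : v x ≤ exp b :=
  hx.trans (exp_le_exp.2 h)

theorem vadd {x y : L} {a : ℤᵐ⁰} (hx : v x ≤ a) (hy : v y ≤ a) : v (x + y) ≤ a :=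
  v.map_add_le hx hy

theorem vsub {x y : L} {a : ℤᵐ⁰} (hx : v x ≤ a) (hy : v y ≤ a) : v (x - y) ≤ a :=
  v.map_sub_le hx hy

theorem vaddl {x y : L} {a : ℤᵐ⁰} (hx : v x < a) (hy : v y < a) : v (x + y) < a :=
  v.map_add_lt hx hy

theorem vsubl {x y : L} {a : ℤᵐ⁰} (hx : v x < a) (hy : v y < a) : v (x - y) < a := by
  rw [sub_eq_add_neg]
  exact v.map_add_lt hx (by rwa [Valuation.map_neg])

theorem sq_le {x : L} {a b : ℤ} (h : v (x ^ 2) ≤ exp a) (hab : a < 2 * (b + 1)) :
    v x ≤ exp b := by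
  rcases eq_or_ne x 0 with rfl | hx
  · simp
  have h0 : v x ≠ 0 := (Valuation.ne_zero_iff v).2 hx
  rw [map_pow, ← log_le_iff_le_exp (pow_ne_zero 2 h0), log_pow, nsmul_eq_mul] at h
  rw [← log_le_iff_le_exp h0]
  push_cast at h
  omega

theorem div_ge {a b : L} {k : ℤ} (ha : v a = exp k) (hb : v b ≤ exp k) (hb0 : b ≠ 0) :
    1 ≤ v (a / b) := by
  have h0 : v b ≠ 0 := (Valuation.ne_zero_iff v).2 hb0
  rw [map_div₀, ha, le_div_iff₀ (zero_lt_iff.2 h0), one_mul]
  exact hb

theorem pow_l {x : L} {n : ℕ} (hn : n ≠ 0) (h : v (x ^ n) < 1) : v x < 1 := by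
  by_contra hc
  rw [map_pow] at h
  exact absurd h (not_lt.2 (one_le_pow₀ (not_lt.1 hc)))

end val

section pts

variable {L : Type} [Field L]

/-- `P` is the affine point `(x, y)` -/
def At (P : (Ec L).toAffine.Point) (x y : L) : Prop := ∃ h, P = Point.some x y h

theorem At.eqn {P : (Ec L).toAffine.Point} {x y : L} (h : At P x y) : y ^ 2 = x ^ 3 - 1 := by
  obtain ⟨hn, -⟩ := h
  have h1 := (WeierstrassCurve.Affine.equation_iff _ _).1 hn.1
  simp only [Ec] at h1
  linear_combination h1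

theorem exists_at {P : (Ec L).toAffine.Point} (h : P ≠ 0) : ∃ x y, At P x y := by
  rcases P with _ | ⟨x, y, hn⟩
  · exact absurd rfl h
  · exact ⟨x, y, hn, rfl⟩

theorem At.ext {P P' : (Ec L).toAffine.Point} {x y : L} (h : At P x y) (h' : At P' x y) :
    P = P' := by
  obtain ⟨hn, rfl⟩ := h
  obtain ⟨hn', rfl⟩ := h'
  rfl

theorem At.neg {P : (Ec L).toAffine.Point} {x y : L} (h : At P x y) : At (-P) x (-y) := by
  obtain ⟨hn, rfl⟩ := h
  rw [Point.neg_some]
  have e : (Ec L).toAffine.negY x y = -y := by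
    rw [WeierstrassCurve.Affine.negY]
    simp only [Ec]
    ring
  have hn2 := (WeierstrassCurve.Affine.nonsingular_neg _ _).2 hn
  rw [e] at hn2
  refine ⟨hn2, ?_⟩
  congr 1

theorem At.add {P P' : (Ec L).toAffine.Point} {x y x' y' : L} (h : At P x y) (h' : At P' x' y')
    (hne : x ≠ x') : ∃ y3, At (P + P') (((y - y') / (x - x')) ^ 2 - x - x') y3 := by
  obtain ⟨hn, rfl⟩ := h
  obtain ⟨hn', rfl⟩ := h'
  rw [Point.add_of_X_ne hne]
  have e : (Ec L).toAffine.addX x x' ((Ec L).toAffine.slope x x' y y') =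
      ((y - y') / (x - x')) ^ 2 - x - x' := by
    rw [WeierstrassCurve.Affine.addX, WeierstrassCurve.Affine.slope_of_X_ne hne]
    simp only [Ec]
    ring
  rw [← e]
  exact ⟨_, _, rfl⟩

theorem At.dbl {P : (Ec L).toAffine.Point} {x y : L} (h : At P x y) (hy : 2 * y ≠ 0) :
    ∃ y3, At (P + P) ((3 * x ^ 2 / (2 * y)) ^ 2 - x - x) y3 := by
  obtain ⟨hn, rfl⟩ := h
  have hy' : y ≠ (Ec L).toAffine.negY x y := by
    rw [WeierstrassCurve.Affine.negY]
    simp only [Ec]
    intro h
    apply hy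
    linear_combination h
  rw [Point.add_self_of_Y_ne hy']
  have e : (Ec L).toAffine.addX x x ((Ec L).toAffine.slope x x y y) =
      (3 * x ^ 2 / (2 * y)) ^ 2 - x - x := by
    rw [WeierstrassCurve.Affine.addX, WeierstrassCurve.Affine.slope_of_Y_ne rfl hy',
      WeierstrassCurve.Affine.negY]
    simp only [Ec]
    have h2 : y - (-y - 0 * x - 0) = 2 * y := by ring
    rw [h2]
    ring
  rw [← e]
  exact ⟨_, _, rfl⟩

variable {v : Valuation L ℤᵐ⁰} {H : AddSubgroup (Ec L).toAffine.Point}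

theorem nsr_iff {P : (Ec L).toAffine.Point} {x y : L} (h : At P x y) :
    NonsingRed v (Ec L) P ↔ 1 ≤ v (2 * y) ∨ 1 ≤ v (3 * x ^ 2) := by
  obtain ⟨hn, rfl⟩ := h
  change (1 ≤ v (2 * y + 0 * x + 0) ∨ 1 ≤ v (3 * x ^ 2 + 2 * 0 * x + 0 - 0 * y)) ↔ _
  rw [zero_mul, zero_mul, mul_zero, zero_mul, add_zero, add_zero, add_zero, add_zero, sub_zero]

theorem not_mem_iff (hH : ∀ P, P ∈ H ↔ NonsingRed v (Ec L) P) {P : (Ec L).toAffine.Point} {x y : L}
    (h : At P x y) : P ∉ H ↔ v (2 * y) < 1 ∧ v (3 * x ^ 2) < 1 := by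
  rw [hH, nsr_iff h, not_or, not_le, not_le]

theorem not_mem_at {P : (Ec L).toAffine.Point} (hP : P ∉ H) : ∃ x y, At P x y :=
  exists_at fun h0 => hP (by rw [h0]; exact zero_mem _)

end pts

/-! ### Good reduction, and the primes above two -/

theorem tg {L : Type} [Field L] (v : Valuation L ℤᵐ⁰) (h2 : v 2 = 1) (h3 : v 3 = 1)
    (P : (Ec L).toAffine.Point) : NonsingRed v (Ec L) P := by
  rcases P with _ | ⟨x, y, hn⟩
  · exact trivial
  have hA : At (Point.some x y hn) x y := ⟨hn, rfl⟩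
  rw [nsr_iff hA]
  by_contra hc
  rw [not_or, not_le, not_le] at hc
  obtain ⟨h4, h5⟩ := hc
  rw [map_mul, h3, one_mul] at h5
  rw [map_mul, h2, one_mul] at h4
  have hx := pow_l two_ne_zero h5
  have e : (1 : L) = x ^ 3 - y ^ 2 := by
    have := hA.eqn
    linear_combination this
  have h6 : v (1 : L) < 1 := by
    rw [e]
    refine vsubl ?_ ?_
    · rw [map_pow]
      exact pow_lt_one₀ zero_le' hx (by norm_num)
    · rw [map_pow]
      exact pow_lt_one₀ zero_le' h4 (by norm_num)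
  rw [map_one] at h6
  exact lt_irrefl _ h6

theorem t2 {L : Type} [Field L] (v : Valuation L ℤᵐ⁰) (h2 : v 2 = exp (-1 : ℤ)) (h3 : v 3 = 1)
    (P : (Ec L).toAffine.Point) : NonsingRed v (Ec L) P := by
  rcases P with _ | ⟨x, y, hn⟩
  · exact trivial
  have hA : At (Point.some x y hn) x y := ⟨hn, rfl⟩
  rw [nsr_iff hA]
  by_contra hc
  rw [not_or, not_le, not_le] at hc
  obtain ⟨h4, h5⟩ := hc
  rw [map_mul, h3, one_mul] at h5
  have hx := pow_l two_ne_zero h5
  have he := hA.eqn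
  have hx3 : v (x ^ 3) ≤ exp (-3 : ℤ) := vle (vpow (lt_one_iff.1 hx) 3) (by norm_num)
  have h2y : v (2 * y) < 1 := h4
  have h6 : v (y - 1) < 1 := by
    apply pow_l two_ne_zero
    have e : (y - 1) ^ 2 = x ^ 3 - 2 * y := by linear_combination he
    rw [e]
    refine vsubl ?_ h2y
    rw [map_pow]
    exact pow_lt_one₀ zero_le' hx (by norm_num)
  have h7 := lt_one_iff.1 h6
  have h8 : v (2 : L) ≤ exp (-2 : ℤ) := by
    have e : (2 : L) = x ^ 3 - 2 * (y - 1) - (y - 1) ^ 2 := by linear_combination he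
    rw [e]
    refine vsub (vsub (vle hx3 (by norm_num)) ?_) ?_
    · exact vle (vmul h2.le h7) (by norm_num)
    · exact vle (vpow h7 2) (by norm_num)
  rw [h2, exp_le_exp] at h8
  norm_num at h8

/-! ### The primes above `3` -/

/-- a group of order at most four all of whose elements are killed by two -/
theorem card_two {Q : Type} [AddCommGroup Q] [Finite Q] (h4 : Nat.card Q ≤ 4)
    (h2 : ∀ q : Q, q + q = 0) : Nat.card Q = 1 ∨ Nat.card Q = 2 ∨ Nat.card Q = 4 := by
  have h0 : 0 < Nat.card Q := Nat.card_pos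
  have h3 : Nat.card Q ≠ 3 := by
    intro h3
    have h5 : ∀ q : Q, q = 0 := by
      intro q
      have h6 : 3 • q = 0 := by rw [← h3]; exact card_nsmul_eq_zero'
      have h7 : 3 • q = q + (q + q) := by abel
      rw [h7, h2 q, add_zero] at h6
      exact h6
    have : Subsingleton Q := ⟨fun a b => by rw [h5 a, h5 b]⟩
    rw [Nat.card_of_subsingleton (0 : Q)] at h3
    omega
  omega

theorem t3 {L : Type} [Field L] (v : Valuation L ℤᵐ⁰) (θ : L) (hθ : θ ^ 2 = -3)
    (hvθ : v θ = exp (-1 : ℤ)) (H : AddSubgroup (Ec L).toAffine.Point)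
    (hH : ∀ P, P ∈ H ↔ NonsingRed v (Ec L) P) : H.index = 1 ∨ H.index = 2 ∨ H.index = 4 := by
  have v3 : v (3 : L) = exp (-2 : ℤ) := by
    have e : (3 : L) = -(θ ^ 2) := by rw [hθ]; ring
    rw [e, Valuation.map_neg, map_pow, hvθ]
    rfl
  have v3l : v (3 : L) < 1 := by
    rw [v3, lt_one_iff]
    exact exp_le_exp.2 (by norm_num)
  have v3e : v (3 : L) ≤ exp (-1 : ℤ) := lt_one_iff.1 v3l
  have v2 : v (2 : L) = 1 := by
    have e : (2 : L) = -1 + 3 := by norm_num
    rw [e, Valuation.map_add_eq_of_lt_left v (by rw [Valuation.map_neg, map_one]; exact v3l),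
      Valuation.map_neg, map_one]
  have hθ0 : θ ≠ 0 := by
    rintro rfl
    rw [map_zero] at hvθ
    exact exp_ne_zero hvθ.symm
  -- the points of singular reduction
  have hsing : ∀ {P : (Ec L).toAffine.Point} {x y : L}, At P x y → P ∉ H →
      v (x - 1) ≤ exp (-1 : ℤ) ∧ v y ≤ exp (-1 : ℤ) := by
    intro P x y hA hP
    obtain ⟨h1, h2⟩ := (not_mem_iff hH hA).1 hP
    have he := hA.eqn
    rw [map_mul, v2, one_mul] at h1
    have hx : v x ≤ 1 := by
      by_contra hc
      rw [not_le] at hc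
      have hx0 : v x ≠ 0 := (lt_trans zero_lt_one hc).ne'
      rw [map_mul, v3, map_pow] at h2
      have h3 : log (exp (-2 : ℤ) * v x ^ 2) < 0 := by
        rw [← log_one, log_lt_log (mul_ne_zero exp_ne_zero (pow_ne_zero 2 hx0)) one_ne_zero]
        exact h2
      have h4 : 0 < log (v x) := by
        rw [← log_one, log_lt_log one_ne_zero hx0]
        exact hc
      rw [log_mul exp_ne_zero (pow_ne_zero 2 hx0), log_exp, log_pow, nsmul_eq_mul] at h3
      push_cast at h3
      omega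
    have hx1 : v (x - 1) < 1 := by
      apply pow_l three_ne_zero
      have e : (x - 1) ^ 3 = y ^ 2 - 3 * (x * (x - 1)) := by rw [he]; ring
      rw [e]
      refine vsubl ?_ ?_
      · rw [map_pow]
        exact pow_lt_one₀ zero_le' h1 (by norm_num)
      · rw [map_mul, map_mul]
        exact m2l v3l (mul_le_one' hx (vsub hx (by rw [map_one])))
    exact ⟨lt_one_iff.1 hx1, lt_one_iff.1 h1⟩
  -- the equation in terms of `t = (x - 1) / θ`
  have het : ∀ {P : (Ec L).toAffine.Point} {x y : L}, At P x y → P ∉ H →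
      ∃ t : L, x = 1 + θ * t ∧ v t ≤ 1 ∧ y ^ 2 = θ ^ 3 * (t ^ 3 - θ * t ^ 2 - t) := by
    intro P x y hA hP
    obtain ⟨h1, -⟩ := hsing hA hP
    have he := hA.eqn
    have ht : x = 1 + θ * ((x - 1) / θ) := by
      rw [mul_div_cancel₀ _ hθ0]
      ring
    refine ⟨(x - 1) / θ, ht, ?_, ?_⟩
    · rw [map_div₀, hvθ]
      exact (div_le_one₀ exp_pos).2 h1
    · rw [he]
      generalize (x - 1) / θ = t at ht
      rw [ht]
      linear_combination (θ * t + θ ^ 2 * t ^ 2) * hθ
  have hy2 : ∀ {P : (Ec L).toAffine.Point} {x y : L}, At P x y → P ∉ H →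
      v y ≤ exp (-2 : ℤ) := by
    intro P x y hA hP
    obtain ⟨t, -, ht, h1⟩ := het hA hP
    have h2 : v (y ^ 2) ≤ exp (-3 : ℤ) := by
      rw [h1, map_mul]
      have h3 : v (θ ^ 3) ≤ exp (-3 : ℤ) := vle (vpow hvθ.le 3) (by norm_num)
      have h4 : v (t ^ 3 - θ * t ^ 2 - t) ≤ 1 := by
        refine vsub (vsub ?_ ?_) ht
        · rw [map_pow]; exact pow_le_one₀ zero_le' ht
        · rw [map_mul, map_pow]
          refine mul_le_one' ?_ (pow_le_one₀ zero_le' ht)
          rw [hvθ]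
          exact (lt_one_iff.2 le_rfl).le
      calc v (θ ^ 3) * v (t ^ 3 - θ * t ^ 2 - t) ≤ exp (-3 : ℤ) * 1 := mul_le_mul' h3 h4
        _ = _ := mul_one _
    exact sq_le h2 (by norm_num)
  -- the classes
  have hcls : ∀ {P : (Ec L).toAffine.Point}, P ∉ H → ∃ (k : Fin 3) (x y : L), At P x y ∧
      v ((x - 1) - θ * (![0, 1, -1] k)) ≤ exp (-2 : ℤ) := by
    intro P hP
    obtain ⟨x, y, hA⟩ := not_mem_at hP
    obtain ⟨t, hx, ht, h1⟩ := het hA hP
    have hy := hy2 hA hP
    have h2 : v (t * ((t - 1) * (t + 1))) < 1 := by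
      have h3 : v (t ^ 3 - θ * t ^ 2 - t) < 1 := by
        by_contra h4
        rw [not_lt] at h4
        have h5 : v (y ^ 2) ≤ exp (-4 : ℤ) := vle (vpow hy 2) (by norm_num)
        rw [h1, map_mul, map_pow, hvθ] at h5
        have h6 : exp (-3 : ℤ) ≤ exp (-4 : ℤ) := by
          calc exp (-3 : ℤ) = exp (-1 : ℤ) ^ 3 * 1 := by rw [mul_one]; rfl
            _ ≤ exp (-1 : ℤ) ^ 3 * v (t ^ 3 - θ * t ^ 2 - t) := mul_le_mul' le_rfl h4
            _ ≤ _ := h5
        rw [exp_le_exp] at h6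
        norm_num at h6
      have e : t * ((t - 1) * (t + 1)) = (t ^ 3 - θ * t ^ 2 - t) + θ * t ^ 2 := by ring
      rw [e]
      refine vaddl h3 ?_
      rw [map_mul, map_pow]
      refine m2l ?_ (pow_le_one₀ zero_le' ht)
      rw [hvθ]
      exact lt_one_iff.2 le_rfl
    have key : ∀ r : L, v (t - r) < 1 → v ((x - 1) - θ * r) ≤ exp (-2 : ℤ) := by
      intro r hr
      have e : (x - 1) - θ * r = θ * (t - r) := by rw [hx]; ring
      rw [e]
      exact vle (vmul hvθ.le (lt_one_iff.1 hr)) (by norm_num)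
    have h3 : v t < 1 ∨ v (t - 1) < 1 ∨ v (t + 1) < 1 := by
      by_contra hc
      rw [not_or, not_or, not_lt, not_lt, not_lt] at hc
      rw [map_mul, map_mul] at h2
      exact absurd h2 (not_lt.2 (one_le_mul hc.1 (one_le_mul hc.2.1 hc.2.2)))
    rcases h3 with h4 | h4 | h4
    · exact ⟨0, x, y, hA, key 0 (by rwa [sub_zero])⟩
    · exact ⟨1, x, y, hA, key 1 h4⟩
    · exact ⟨2, x, y, hA, key (-1) (by rwa [sub_neg_eq_add])⟩
  have hx1 : ∀ {x : L}, v (x - 1) ≤ exp (-1 : ℤ) → v x = 1 := by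
    intro x hx
    have e : x = 1 + (x - 1) := by ring
    rw [e, Valuation.map_add_eq_of_lt_left v (by
      rw [map_one]; exact lt_one_iff.2 hx), map_one]
  -- a sum with integral inverse slope is of nonsingular reduction
  have hslope : ∀ {P : (Ec L).toAffine.Point} {l x x' y3 : L}, At P (l ^ 2 - x - x') y3 →
      1 ≤ v l → v (x - 1) ≤ exp (-1 : ℤ) → v (x' - 1) ≤ exp (-1 : ℤ) → P ∈ H := by
    intro P l x x' y3 hA hl hx hx'
    by_contra hcon
    obtain ⟨h2, -⟩ := hsing hA hcon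
    have e : l ^ 2 = (l ^ 2 - x - x' - 1) + (x - 1) + (x' - 1) + 3 := by ring
    have h3 : v (l ^ 2) < 1 := by
      rw [e]
      exact vaddl (vaddl (vaddl (lt_one_iff.2 h2) (lt_one_iff.2 hx)) (lt_one_iff.2 hx')) v3l
    rw [map_pow] at h3
    exact absurd h3 (not_lt.2 (one_le_pow₀ hl))
  have hdbl : ∀ {P : (Ec L).toAffine.Point}, P ∉ H → P + P ∈ H := by
    intro P hP
    obtain ⟨x, y, hA⟩ := not_mem_at hP
    obtain ⟨hx, -⟩ := hsing hA hP
    have hy := hy2 hA hP
    by_cases hy0 : 2 * y = 0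
    · have h2 : -y = y := by linear_combination -hy0
      have h3 := hA.neg
      rw [h2] at h3
      have h4 : P = -P := hA.ext h3
      have h5 : P + P = 0 := by
        nth_rewrite 2 [h4]
        exact add_neg_cancel P
      rw [h5]
      exact zero_mem _
    · obtain ⟨y3, h3⟩ := hA.dbl hy0
      refine hslope h3 ?_ hx hx
      refine div_ge (k := -2) ?_ ?_ hy0
      · rw [map_mul, map_pow, hx1 hx, one_pow, mul_one, v3]
      · rw [map_mul, v2, one_mul]
        exact hy
  have hadd : ∀ {P Q : (Ec L).toAffine.Point} {x y x' y' : L}, At P x y → At Q x' y' →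
      P ∉ H → Q ∉ H → v (x - x') ≤ exp (-2 : ℤ) → P - Q ∈ H := by
    intro P Q x y x' y' hA hA' hP hQ hxx'
    have hPQ : P + Q ∈ H → P - Q ∈ H := by
      intro h
      have e : P - Q = (P + Q) - (Q + Q) := by abel
      rw [e]
      exact sub_mem h (hdbl hQ)
    obtain ⟨hx, -⟩ := hsing hA hP
    obtain ⟨hx', -⟩ := hsing hA' hQ
    have hy := hy2 hA hP
    have hy' := hy2 hA' hQ
    have he := hA.eqn
    have he' := hA'.eqn
    by_cases hxx : x = x'
    · subst hxx
      have e1 : (y - y') * (y + y') = 0 := by linear_combination he - he'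
      rcases mul_eq_zero.1 e1 with h | h
      · have h1 : y = y' := sub_eq_zero.1 h
        subst h1
        rw [hA.ext hA', sub_self]
        exact zero_mem _
      · apply hPQ
        have h1 : y = -y' := by linear_combination h
        rw [h1] at hA
        rw [hA.ext hA'.neg, neg_add_cancel]
        exact zero_mem _
    · apply hPQ
      obtain ⟨y3, h3⟩ := hA.add hA' hxx
      refine hslope h3 ?_ hx hx'
      have hxx0 : x - x' ≠ 0 := sub_ne_zero.2 hxx
      have vx : v x = 1 := hx1 hx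
      have hq : v (x ^ 2 + x * x' + x' ^ 2) = exp (-2 : ℤ) := by
        have e : x ^ 2 + x * x' + x' ^ 2 = 3 * x ^ 2 + (x - x') * ((x - x') - 3 * x) := by ring
        have h4 : v (3 * x ^ 2) = exp (-2 : ℤ) := by
          rw [map_mul, map_pow, vx, one_pow, mul_one, v3]
        have h5 : v ((x - x') * ((x - x') - 3 * x)) < v (3 * x ^ 2) := by
          rw [h4]
          have h6 : v ((x - x') - 3 * x) ≤ exp (-2 : ℤ) := by
            refine vsub hxx' ?_
            rw [map_mul, vx, mul_one, v3]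
          refine lt_of_le_of_lt (vmul hxx' h6) ?_
          rw [exp_lt_exp]
          norm_num
        rw [e, Valuation.map_add_eq_of_lt_left v h5, h4]
      have hs : v (y + y') ≤ exp (-2 : ℤ) := vadd hy hy'
      have hprod : (y - y') * (y + y') = (x - x') * (x ^ 2 + x * x' + x' ^ 2) := by
        linear_combination he - he'
      have hs0 : y + y' ≠ 0 := by
        intro h0
        rw [h0, mul_zero] at hprod
        rcases mul_eq_zero.1 hprod.symm with h | h
        · exact hxx0 h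
        · rw [h, map_zero] at hq
          exact exp_ne_zero hq.symm
      have e : (y - y') / (x - x') = (x ^ 2 + x * x' + x' ^ 2) / (y + y') := by
        rw [div_eq_div_iff hxx0 hs0, hprod]
        ring
      rw [e]
      exact div_ge hq hs hs0
  have hclt : ∀ q : (Ec L).toAffine.Point ⧸ H, ∃ P : (Ec L).toAffine.Point,
      (QuotientAddGroup.mk P : (Ec L).toAffine.Point ⧸ H) = q :=
    fun q => QuotientAddGroup.mk_surjective q
  choose rp hrp using hclt
  have hF : ∀ q : (Ec L).toAffine.Point ⧸ H, ∃ o : Option (Fin 3),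
      (rp q ∈ H ∧ o = none) ∨ (rp q ∉ H ∧ ∃ (k : Fin 3) (x y : L), o = some k ∧ At (rp q) x y ∧
        v ((x - 1) - θ * (![0, 1, -1] k)) ≤ exp (-2 : ℤ)) := by
    intro q
    by_cases h : rp q ∈ H
    · exact ⟨none, Or.inl ⟨h, rfl⟩⟩
    · obtain ⟨k, x, y, h2, h3⟩ := hcls h
      exact ⟨some k, Or.inr ⟨h, k, x, y, rfl, h2, h3⟩⟩
  choose F hF using hF
  have hinj : Function.Injective F := by
    intro q q' hqq
    have h2 : rp q - rp q' ∈ H := by
      rcases hF q with ⟨h3, h4⟩ | ⟨h3, k, x, y, h4, h5, h6⟩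
      · rcases hF q' with ⟨h3', h4'⟩ | ⟨h3', k', x', y', h4', h5', h6'⟩
        · exact sub_mem h3 h3'
        · rw [h4, h4'] at hqq
          exact absurd hqq (by simp)
      · rcases hF q' with ⟨h3', h4'⟩ | ⟨h3', k', x', y', h4', h5', h6'⟩
        · rw [h4, h4'] at hqq
          exact absurd hqq (by simp)
        · rw [h4, h4'] at hqq
          have hkk : k = k' := Option.some_injective _ hqq
          subst hkk
          refine hadd h5 h5' h3 h3' ?_
          have e : x - x' = ((x - 1) - θ * (![0, 1, -1] k)) -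
              ((x' - 1) - θ * (![0, 1, -1] k)) := by ring
          rw [e]
          exact vsub h6 h6'
    rw [← hrp q, ← hrp q', ← sub_eq_zero, ← QuotientAddGroup.mk_sub]
    exact (QuotientAddGroup.eq_zero_iff _).2 h2
  have hfin : Finite ((Ec L).toAffine.Point ⧸ H) := Finite.of_injective F hinj
  have hcard : Nat.card ((Ec L).toAffine.Point ⧸ H) ≤ 4 := by
    refine (Nat.card_le_card_of_injective F hinj).trans ?_
    simp
  refine card_two hcard fun q => ?_
  rw [← hrp q, ← QuotientAddGroup.mk_add]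
  apply (QuotientAddGroup.eq_zero_iff _).2
  by_cases h : rp q ∈ H
  · exact add_mem h h
  · exact hdbl h

end Pool.Agent.W2helper93.TQ
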