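import Mathlib
import Pool.Agent.W2helper24.TQ.Stm
import Pool.Agent.Y696.Bld
import Pool.Agent.W2helper93.TQ.A9L

/-!
# Piece A9: minimality and the local indices of `y² = x³ - 1`
-/

set_option autoImplicit false

namespace Pool.Agent.W2helper93.TQ

open NumberField IsDedekindDomain WithZero WeierstrassCurve
open Pool.Agent.Y696 (NonsingRed und und_lies mem_under_of_lies val_of_unr val_theta_F val_prime_F)
open Pool.Agent.W2helper24.TQ (Em Ram P_A9)
open scoped Classical

lemma Em_map {R S : Type} [CommRing R] [CommRing S] (f : R →+* S) : (Em R).map f = Em S := by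
  ext <;> simp [Em]

lemma Em_Δ (R : Type) [CommRing R] : (Em R).Δ = -432 := by
  simp only [Em, WeierstrassCurve.Δ, WeierstrassCurve.b₂, WeierstrassCurve.b₄,
    WeierstrassCurve.b₆, WeierstrassCurve.b₈]
  ring

instance Em_integral (R : Type) [CommRing R] [IsDomain R] [IsDiscreteValuationRing R] {L : Type}
    [Field L] [Algebra R L] [IsFractionRing R L] : WeierstrassCurve.IsIntegral R (Em L) :=
  ⟨⟨Em R, (Em_map (algebraMap R L)).symm⟩⟩

section min
open IsDiscreteValuationRing IsLocalRing IsDedekindDomain.HeightOneSpectrum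
variable (R : Type) [CommRing R] [IsDomain R] [IsDiscreteValuationRing R] {L : Type}
  [Field L] [Algebra R L] [IsFractionRing R L]

lemma isMinimal_Em (h : ∀ u ∈ IsLocalRing.maximalIdeal R, ¬ u ^ 12 ∣ (432 : R)) :
    WeierstrassCurve.IsMinimal R (Em L) := by
  refine ⟨⟨by
    change WeierstrassCurve.IsIntegral R ((1 : WeierstrassCurve.VariableChange L) • Em L)
    rw [one_smul]
    infer_instance, ?_⟩⟩
  intro C hC _
  have hC' : WeierstrassCurve.IsIntegral R (C • Em L) := hC
  change WeierstrassCurve.valuation_Δ_aux R (C • Em L) ≤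
    WeierstrassCurve.valuation_Δ_aux R ((1 : WeierstrassCurve.VariableChange L) • Em L)
  rw [one_smul, ← Subtype.coe_le_coe, valuation_Δ_aux_eq_of_isIntegral,
    valuation_Δ_aux_eq_of_isIntegral, variableChange_Δ, Em_Δ, map_mul]
  have hu0 : ((C.u : Lˣ) : L) ≠ 0 := C.u.ne_zero
  have huv : ((C.u⁻¹ : Lˣ) : L) * ((C.u : Lˣ) : L) = 1 := by simp
  have hle : valuation L (maximalIdeal R) ((C.u⁻¹ : Lˣ) : L) ≤ 1 := by
    by_contra hlt
    rw [not_le] at hlt
    have h1 : valuation L (maximalIdeal R) ((C.u : Lˣ) : L) < 1 := by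
      have h2 := congrArg (valuation L (maximalIdeal R)) huv
      rw [map_mul, map_one] at h2
      by_contra h3
      rw [not_lt] at h3
      exact absurd h2 (one_lt_mul_of_lt_of_le hlt h3).ne'
    obtain ⟨u₀, hu₀⟩ := exists_lift_of_le_one (A := R) (K := L) h1.le
    have hmem : u₀ ∈ IsLocalRing.maximalIdeal R := by
      rw [← hu₀] at h1
      exact (valuation_lt_one_iff_mem (K := L) (maximalIdeal R) u₀).1 h1
    obtain ⟨r, hr⟩ := WeierstrassCurve.Δ_integral_of_isIntegral R (C • Em L)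
    rw [variableChange_Δ, Em_Δ] at hr
    refine h u₀ hmem ⟨-r, ?_⟩
    apply IsFractionRing.injective R L
    rw [map_mul, map_neg, map_pow, hr, hu₀, map_ofNat]
    have h5 : ((C.u : Lˣ) : L) ^ 12 * (((C.u⁻¹ : Lˣ) : L)) ^ 12 = 1 := by
      rw [← mul_pow, mul_comm, huv, one_pow]
    linear_combination -432 * h5
  calc valuation L (maximalIdeal R) (((C.u⁻¹ : Lˣ) : L) ^ 12) * valuation L (maximalIdeal R) (-432)
      ≤ 1 * valuation L (maximalIdeal R) (-432) := by
        rw [map_pow]
        gcongr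
        exact pow_le_one₀ zero_le hle
    _ = _ := one_mul _

end min

section val
variable {K F : Type} [Field K] [NumberField K] [IsCyclotomicExtension {3} ℚ K] [Field F]
  [NumberField F] [Algebra K F]

lemma ram_two (hR : Ram K F) {v : HeightOneSpectrum (𝓞 F)} (hv : (2 : 𝓞 F) ∈ v.asIdeal) :
    Algebra.IsUnramifiedAt (𝓞 K) v.asIdeal := by
  by_contra h
  refine (hR v h).2 1 ?_
  have : (1 : 𝓞 K) ^ 2 + 1 = 2 := by norm_num
  rw [this, map_ofNat]
  exact hv

lemma ram_three (hR : Ram K F) {v : HeightOneSpectrum (𝓞 F)} (hv : (3 : 𝓞 F) ∈ v.asIdeal) :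
    Algebra.IsUnramifiedAt (𝓞 K) v.asIdeal := by
  by_contra h
  exact (hR v h).1 hv

lemma val_unr {v : HeightOneSpectrum (𝓞 F)} (h : Algebra.IsUnramifiedAt (𝓞 K) v.asIdeal) (x : K) :
    v.valuation F (algebraMap K F x) = (und (F := K) v).valuation K x := by
  have hlo := und_lies (F := K) v
  refine val_of_unr hlo ?_ x
  have := h
  rw [Ideal.ramificationIdx'_eq_ramificationIdx _ _ (und (F := K) v).ne_bot]
  exact Ideal.ramificationIdx_eq_one _ _

lemma val_two (hR : Ram K F) {v : HeightOneSpectrum (𝓞 F)} (hv : (2 : 𝓞 F) ∈ v.asIdeal) :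
    v.valuation F 2 = exp (-1 : ℤ) := by
  have h1 := val_unr (ram_two hR hv) 2
  rw [map_ofNat] at h1
  have h2 : ((2 : ℕ) : 𝓞 K) ∈ (und (F := K) v).asIdeal := by
    rw [mem_under_of_lies (und_lies v), map_natCast]
    exact_mod_cast hv
  have h3 := val_prime_F Nat.prime_two (by norm_num) (und (F := K) v) h2
  rw [h1, ← h3]
  norm_cast

lemma val_theta (hR : Ram K F) {v : HeightOneSpectrum (𝓞 F)} (hv : (3 : 𝓞 F) ∈ v.asIdeal) {θ : K}
    (hθ : θ ^ 2 = -3) : v.valuation F (algebraMap K F θ) = exp (-1 : ℤ) := by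
  rw [val_unr (ram_three hR hv)]
  refine val_theta_F _ ?_ hθ
  rw [mem_under_of_lies (und_lies v), map_ofNat]
  exact hv

omit [Field F] [NumberField F] [Algebra K F] in
lemma exists_theta (K : Type) [Field K] [NumberField K] [IsCyclotomicExtension {3} ℚ K] :
    ∃ θ : K, θ ^ 2 = -3 := by
  obtain ⟨ζ, hζ⟩ := IsCyclotomicExtension.exists_isPrimitiveRoot ℚ K
    (Set.mem_singleton 3) (by norm_num)
  have h1 : ζ ^ 2 + ζ + 1 = 0 := by
    have h3 : ζ ^ 3 = 1 := hζ.pow_eq_one
    have h4 : ζ ≠ 1 := hζ.ne_one (by norm_num)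
    have h5 : (ζ - 1) * (ζ ^ 2 + ζ + 1) = 0 := by
      linear_combination h3
    exact (mul_eq_zero.1 h5).resolve_left (sub_ne_zero.2 h4)
  exact ⟨2 * ζ + 1, by linear_combination 4 * h1⟩

/-- the three kinds of places -/
lemma cases (hR : Ram K F) (v : HeightOneSpectrum (𝓞 F)) :
    (Valued.v (2 : v.adicCompletion F) = 1 ∧ Valued.v (3 : v.adicCompletion F) = 1) ∨
    (Valued.v (2 : v.adicCompletion F) = exp (-1 : ℤ) ∧ Valued.v (3 : v.adicCompletion F) = 1) ∨
    (Valued.v (2 : v.adicCompletion F) = 1 ∧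
      ∃ θ : v.adicCompletion F, θ ^ 2 = -3 ∧ Valued.v θ = exp (-1 : ℤ)) := by
  have hn : ∀ n : ℕ, Valued.v (n : v.adicCompletion F) = v.valuation F (n : F) := by
    intro n
    have h : (n : v.adicCompletion F) = algebraMap F (v.adicCompletion F) (n : F) :=
      (map_natCast (algebraMap F (v.adicCompletion F)) n).symm
    rw [h, Pool.Agent.H723R3.valued_algebraMap]
  have h1 : ∀ n : ℕ, (n : 𝓞 F) ∉ v.asIdeal → Valued.v (n : v.adicCompletion F) = 1 := by
    intro n h
    rw [hn]
    have : (n : F) = algebraMap (𝓞 F) F n := by rw [map_natCast]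
    rw [this, HeightOneSpectrum.valuation_of_algebraMap]
    exact (HeightOneSpectrum.intValuation_eq_one_iff).2 h
  have h23 : (2 : 𝓞 F) ∈ v.asIdeal → (3 : 𝓞 F) ∉ v.asIdeal := by
    intro h2 h3
    apply v.isPrime.ne_top
    rw [Ideal.eq_top_iff_one]
    have : (1 : 𝓞 F) = 3 - 2 := by norm_num
    rw [this]
    exact sub_mem h3 h2
  have e2 : ((2 : ℕ) : v.adicCompletion F) = 2 := by norm_cast
  have e3 : ((3 : ℕ) : v.adicCompletion F) = 3 := by norm_cast
  by_cases h3 : (3 : 𝓞 F) ∈ v.asIdeal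
  · right; right
    refine ⟨?_, ?_⟩
    · rw [← e2]
      apply h1
      intro h
      exact h23 (by exact_mod_cast h) h3
    · obtain ⟨θ, hθ⟩ := exists_theta K
      refine ⟨algebraMap F (v.adicCompletion F) (algebraMap K F θ), ?_, ?_⟩
      · rw [← map_pow, ← map_pow, hθ, map_neg, map_neg, map_ofNat, map_ofNat]
      · rw [Pool.Agent.H723R3.valued_algebraMap]
        exact val_theta hR h3 hθ
  · have h3' : Valued.v (3 : v.adicCompletion F) = 1 := by
      rw [← e3]
      exact h1 3 (by exact_mod_cast h3)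
    by_cases h2 : (2 : 𝓞 F) ∈ v.asIdeal
    · right; left
      refine ⟨?_, h3'⟩
      rw [← e2, hn]
      have := val_two hR h2
      exact_mod_cast this
    · left
      refine ⟨?_, h3'⟩
      rw [← e2]
      exact h1 2 (by exact_mod_cast h2)

/-- **the model is minimal at every finite place** -/
theorem min_all (hR : Ram K F) (v : HeightOneSpectrum (𝓞 F)) :
    WeierstrassCurve.IsMinimal (v.adicCompletionIntegers F)
      ((Em F).baseChange (v.adicCompletion F)) := by
  have hbc : (Em F).baseChange (v.adicCompletion F) = Em (v.adicCompletion F) := Em_map _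
  rw [hbc]
  apply isMinimal_Em
  rintro u hu ⟨r, hr⟩
  have h1 : Valued.v (u : v.adicCompletion F) < 1 := (Pool.Agent.W189.NF.mem_max_iff v u).1 hu
  have h2 : Valued.v (u : v.adicCompletion F) ≤ exp (-1 : ℤ) := lt_one_iff.1 h1
  have h3 : Valued.v (r : v.adicCompletion F) ≤ 1 := r.2
  have h4 : (432 : v.adicCompletion F) =
      (u : v.adicCompletion F) ^ 12 * (r : v.adicCompletion F) := by
    have := congrArg (algebraMap (v.adicCompletionIntegers F) (v.adicCompletion F)) hr
    rw [map_mul, map_pow, map_ofNat] at this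
    exact this
  have h5 : Valued.v (432 : v.adicCompletion F) ≤ exp (-12 : ℤ) := by
    rw [h4, map_mul, map_pow]
    calc _ ≤ (exp (-1 : ℤ)) ^ 12 * 1 := by gcongr
      _ = exp (-12 : ℤ) := by rw [mul_one, ← exp_nsmul]; rfl
  have e : (432 : v.adicCompletion F) = 2 ^ 4 * 3 ^ 3 := by norm_num
  have h6 : (exp (-6 : ℤ) : ℤᵐ⁰) ≤ Valued.v (432 : v.adicCompletion F) := by
    rw [e, map_mul, map_pow, map_pow]
    rcases cases hR v with ⟨a, b⟩ | ⟨a, b⟩ | ⟨a, θ, e1, e2⟩
    · rw [a, b, one_pow, one_pow, one_mul, ← exp_zero, exp_le_exp]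
      norm_num
    · rw [a, b, one_pow, mul_one, ← exp_nsmul, exp_le_exp]
      norm_num
    · have : (3 : v.adicCompletion F) = -θ ^ 2 := by
        linear_combination e1
      rw [a, one_pow, one_mul, this, Valuation.map_neg, map_pow, e2, ← exp_nsmul, ← exp_nsmul]
      exact le_of_eq rfl
  have h7 := h6.trans h5
  rw [exp_le_exp] at h7
  norm_num at h7

/-- the index of the points of nonsingular reduction -/
theorem tam_all (hR : Ram K F) (v : HeightOneSpectrum (𝓞 F)) :
    ∃ H : AddSubgroup ((Em F).baseChange (v.adicCompletion F)).toAffine.Point,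
      (∀ P, P ∈ H ↔ NonsingRed Valued.v ((Em F).baseChange (v.adicCompletion F)) P) ∧
      H.index ≠ 0 ∧ ¬ 3 ∣ H.index := by
  have hbc : (Em F).baseChange (v.adicCompletion F) = Ec (v.adicCompletion F) := Em_map _
  rw [hbc]
  rcases cases hR v with ⟨a, b⟩ | ⟨a, b⟩ | ⟨a, θ, e1, e2⟩
  · exact ⟨⊤, fun P => ⟨fun _ => tg _ a b P, fun _ => trivial⟩, by
      rw [AddSubgroup.index_top]; norm_num⟩
  · exact ⟨⊤, fun P => ⟨fun _ => t2 _ a b P, fun _ => trivial⟩, by
      rw [AddSubgroup.index_top]; norm_num⟩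
  · obtain ⟨H, hH⟩ := Pool.Agent.Y891.CTK.sub_of Valued.v (Ec (v.adicCompletion F))
      (by rw [map_zero]; exact zero_le) (by rw [map_zero]; exact zero_le)
      (by rw [map_zero]; exact zero_le) (by rw [map_zero]; exact zero_le)
      (by rw [Valuation.map_neg, map_one])
    refine ⟨H, hH, ?_⟩
    rcases t3 Valued.v θ e1 e2 H hH with h | h | h <;> rw [h] <;> norm_num

end val

/-- **PIECE A9** -/
theorem piece : P_A9 := by
  intro K F _ _ _ _ _ _ _ n _ hR v
  exact ⟨min_all hR v, tam_all hR v⟩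

end Pool.Agent.W2helper93.TQ
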