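import Mathlib
import Pool.Agent.W2helper93.TQ.A9L

/-!
# Local indices of `y² = x³ - a²`
-/

set_option autoImplicit false

open scoped Classical

namespace Pool.Agent.W2helper93.TQ

open WithZero
open Pool.Agent.Y696 (NonsingRed)
open WeierstrassCurve.Affine (Point)

/-- the curve `y² = x³ - a²` over a field -/
abbrev Ea {L : Type} [CommRing L] (a : L) : WeierstrassCurve L := ⟨0, 0, 0, 0, -a ^ 2⟩

section pts

variable {L : Type} [Field L] {a : L}

/-- `P` is the affine point `(x, y)` -/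
def Ata (P : (Ea a).toAffine.Point) (x y : L) : Prop := ∃ h, P = Point.some x y h

theorem Ata.eqn {P : (Ea a).toAffine.Point} {x y : L} (h : Ata P x y) : y ^ 2 = x ^ 3 - a ^ 2 := by
  obtain ⟨hn, -⟩ := h
  have h1 := (WeierstrassCurve.Affine.equation_iff _ _).1 hn.1
  simp only [Ea] at h1
  linear_combination h1

theorem exists_atA {P : (Ea a).toAffine.Point} (h : P ≠ 0) : ∃ x y, Ata P x y := by
  rcases P with _ | ⟨x, y, hn⟩
  · exact absurd rfl h
  · exact ⟨x, y, hn, rfl⟩

theorem Ata.ext {P P' : (Ea a).toAffine.Point} {x y : L} (h : Ata P x y) (h' : Ata P' x y) :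
    P = P' := by
  obtain ⟨hn, rfl⟩ := h
  obtain ⟨hn', rfl⟩ := h'
  rfl

theorem Ata.neg {P : (Ea a).toAffine.Point} {x y : L} (h : Ata P x y) : Ata (-P) x (-y) := by
  obtain ⟨hn, rfl⟩ := h
  rw [Point.neg_some]
  have e : (Ea a).toAffine.negY x y = -y := by
    rw [WeierstrassCurve.Affine.negY]
    simp only [Ea]
    ring
  have hn2 := (WeierstrassCurve.Affine.nonsingular_neg _ _).2 hn
  rw [e] at hn2
  refine ⟨hn2, ?_⟩
  congr 1

theorem Ata.add {P P' : (Ea a).toAffine.Point} {x y x' y' : L} (h : Ata P x y) (h' : Ata P' x' y')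
    (hne : x ≠ x') : ∃ y3, Ata (P + P') (((y - y') / (x - x')) ^ 2 - x - x') y3 := by
  obtain ⟨hn, rfl⟩ := h
  obtain ⟨hn', rfl⟩ := h'
  rw [Point.add_of_X_ne hne]
  have e : (Ea a).toAffine.addX x x' ((Ea a).toAffine.slope x x' y y') =
      ((y - y') / (x - x')) ^ 2 - x - x' := by
    rw [WeierstrassCurve.Affine.addX, WeierstrassCurve.Affine.slope_of_X_ne hne]
    simp only [Ea]
    ring
  rw [← e]
  exact ⟨_, _, rfl⟩

theorem Ata.dbl {P : (Ea a).toAffine.Point} {x y : L} (h : Ata P x y) (hy : 2 * y ≠ 0) :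
    ∃ y3, Ata (P + P) ((3 * x ^ 2 / (2 * y)) ^ 2 - x - x) y3 := by
  obtain ⟨hn, rfl⟩ := h
  have hy' : y ≠ (Ea a).toAffine.negY x y := by
    rw [WeierstrassCurve.Affine.negY]
    simp only [Ea]
    intro h
    apply hy
    linear_combination h
  rw [Point.add_self_of_Y_ne hy']
  have e : (Ea a).toAffine.addX x x ((Ea a).toAffine.slope x x y y) =
      (3 * x ^ 2 / (2 * y)) ^ 2 - x - x := by
    rw [WeierstrassCurve.Affine.addX, WeierstrassCurve.Affine.slope_of_Y_ne rfl hy',
      WeierstrassCurve.Affine.negY]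
    simp only [Ea]
    have h2 : y - (-y - 0 * x - 0) = 2 * y := by ring
    rw [h2]
    ring
  rw [← e]
  exact ⟨_, _, rfl⟩

variable {v : Valuation L ℤᵐ⁰} {H : AddSubgroup (Ea a).toAffine.Point}

theorem nsr_iffA {P : (Ea a).toAffine.Point} {x y : L} (h : Ata P x y) :
    NonsingRed v (Ea a) P ↔ 1 ≤ v (2 * y) ∨ 1 ≤ v (3 * x ^ 2) := by
  obtain ⟨hn, rfl⟩ := h
  change (1 ≤ v (2 * y + 0 * x + 0) ∨ 1 ≤ v (3 * x ^ 2 + 2 * 0 * x + 0 - 0 * y)) ↔ _
  rw [zero_mul, zero_mul, mul_zero, zero_mul, add_zero, add_zero, add_zero, add_zero, sub_zero]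

theorem not_mem_iffA (hH : ∀ P, P ∈ H ↔ NonsingRed v (Ea a) P) {P : (Ea a).toAffine.Point} {x y : L}
    (h : Ata P x y) : P ∉ H ↔ v (2 * y) < 1 ∧ v (3 * x ^ 2) < 1 := by
  rw [hH, nsr_iffA h, not_or, not_le, not_le]

theorem not_mem_atA {P : (Ea a).toAffine.Point} (hP : P ∉ H) : ∃ x y, Ata P x y :=
  exists_atA fun h0 => hP (by rw [h0]; exact zero_mem _)

end pts


/-! ### Good reduction, the primes above two, the primes that divide `a` -/

theorem tgA {L : Type} [Field L] (v : Valuation L ℤᵐ⁰) {a : L} (h2 : v 2 = 1) (h3 : v 3 = 1)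
    (ha : v a = 1) (P : (Ea a).toAffine.Point) : NonsingRed v (Ea a) P := by
  rcases P with _ | ⟨x, y, hn⟩
  · exact trivial
  have hA : Ata (Point.some x y hn) x y := ⟨hn, rfl⟩
  rw [nsr_iffA hA]
  by_contra hc
  rw [not_or, not_le, not_le] at hc
  obtain ⟨h4, h5⟩ := hc
  rw [map_mul, h3, one_mul] at h5
  rw [map_mul, h2, one_mul] at h4
  have hx := pow_l two_ne_zero h5
  have e : a ^ 2 = x ^ 3 - y ^ 2 := by
    have := hA.eqn
    linear_combination this
  have h6 : v (a ^ 2) < 1 := by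
    rw [e]
    refine vsubl ?_ ?_
    · rw [map_pow]
      exact pow_lt_one₀ zero_le' hx (by norm_num)
    · rw [map_pow]
      exact pow_lt_one₀ zero_le' h4 (by norm_num)
  rw [map_pow, ha, one_pow] at h6
  exact lt_irrefl _ h6

theorem t2A {L : Type} [Field L] (v : Valuation L ℤᵐ⁰) {a : L} (h2 : v 2 = exp (-1 : ℤ))
    (h3 : v 3 = 1) (ha : v a = 1) (P : (Ea a).toAffine.Point) : NonsingRed v (Ea a) P := by
  rcases P with _ | ⟨x, y, hn⟩
  · exact trivial
  have hA : Ata (Point.some x y hn) x y := ⟨hn, rfl⟩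
  rw [nsr_iffA hA]
  by_contra hc
  rw [not_or, not_le, not_le] at hc
  obtain ⟨h4, h5⟩ := hc
  rw [map_mul, h3, one_mul] at h5
  have hx := pow_l two_ne_zero h5
  have he := hA.eqn
  have hx3 : v (x ^ 3) ≤ exp (-3 : ℤ) := vle (vpow (lt_one_iff.1 hx) 3) (by norm_num)
  have h6 : v (y - a) < 1 := by
    apply pow_l two_ne_zero
    have e : (y - a) ^ 2 = x ^ 3 - a * (2 * y) := by linear_combination he
    rw [e]
    refine vsubl ?_ ?_
    · rw [map_pow]
      exact pow_lt_one₀ zero_le' hx (by norm_num)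
    · rw [map_mul, ha, one_mul]
      exact h4
  have h7 := lt_one_iff.1 h6
  have h8 : v (2 * a ^ 2) ≤ exp (-2 : ℤ) := by
    have e : 2 * a ^ 2 = x ^ 3 - a * (2 * (y - a)) - (y - a) ^ 2 := by linear_combination he
    rw [e]
    refine vsub (vsub (vle hx3 (by norm_num)) ?_) ?_
    · rw [map_mul, ha, one_mul]
      exact vle (vmul h2.le h7) (by norm_num)
    · exact vle (vpow h7 2) (by norm_num)
  rw [map_mul, map_pow, ha, one_pow, mul_one, h2, exp_le_exp] at h8
  norm_num at h8

theorem tpA {L : Type} [Field L] (v : Valuation L ℤᵐ⁰) {a : L} (h2 : v 2 = 1) (h3 : v 3 = 1)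
    (ha : v a = exp (-1 : ℤ) ∨ v a = exp (-2 : ℤ))
    (hns : ∀ x : L, v x ≤ 1 → v (x ^ 2 + 1) = 1) (P : (Ea a).toAffine.Point) :
    NonsingRed v (Ea a) P := by
  rcases P with _ | ⟨x, y, hn⟩
  · exact trivial
  have hA : Ata (Point.some x y hn) x y := ⟨hn, rfl⟩
  rw [nsr_iffA hA]
  by_contra hc
  rw [not_or, not_le, not_le] at hc
  obtain ⟨h4, h5⟩ := hc
  rw [map_mul, h3, one_mul] at h5
  rw [map_mul, h2, one_mul] at h4
  have he := hA.eqn
  have ha0 : a ≠ 0 := by
    rintro rfl
    rw [map_zero] at ha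
    rcases ha with h | h <;> exact exp_ne_zero h.symm
  have key : ∃ k : ℤ, (k = -1 ∨ k = -2) ∧ v (x ^ 3) = exp (2 * k) := by
    have ex : x ^ 3 = y ^ 2 + a ^ 2 := by linear_combination -he
    by_cases hya : v y ≤ v a
    · have e1 : y ^ 2 + a ^ 2 = a ^ 2 * ((y / a) ^ 2 + 1) := by
        field_simp
      have h6 : v (y / a) ≤ 1 := by
        rw [map_div₀]
        exact (div_le_one₀ (zero_lt_iff.2 ((Valuation.ne_zero_iff v).2 ha0))).2 hya
      have h7 : v (x ^ 3) = v a ^ 2 := by
        rw [ex, e1, map_mul, hns _ h6, mul_one, map_pow]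
      rcases ha with h | h
      · exact ⟨-1, Or.inl rfl, by rw [h7, h, ← exp_nsmul]; rfl⟩
      · exact ⟨-2, Or.inr rfl, by rw [h7, h, ← exp_nsmul]; rfl⟩
    · rw [not_le] at hya
      have h7 : v (x ^ 3) = v y ^ 2 := by
        rw [ex, Valuation.map_add_eq_of_lt_left v, map_pow]
        rw [map_pow, map_pow]
        exact pow_lt_pow_left₀ hya zero_le' two_ne_zero
      have hy1 := lt_one_iff.1 h4
      have hy2 : v y = exp (-1 : ℤ) := by
        refine le_antisymm hy1 ?_
        rcases ha with h | h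
        · rw [h] at hya; exact absurd hya (not_lt.2 hy1)
        · rw [h] at hya
          by_contra hcon
          rw [not_le] at hcon
          have h8 : v y ≤ exp (-2 : ℤ) := by
            rw [← lt_exp_iff]
            exact hcon
          exact absurd hya (not_lt.2 h8)
      exact ⟨-1, Or.inl rfl, by rw [h7, hy2, ← exp_nsmul]; rfl⟩
  obtain ⟨k, hk, hx3⟩ := key
  have hx0 : v x ≠ 0 := by
    intro h0
    rw [map_pow, h0, zero_pow three_ne_zero] at hx3
    exact exp_ne_zero hx3.symm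
  have h9 : 3 * log (v x) = 2 * k := by
    have := congrArg log hx3
    rw [map_pow, log_pow, log_exp, nsmul_eq_mul] at this
    exact_mod_cast this
  rcases hk with rfl | rfl <;> omega

/-! ### The primes above `3` -/

theorem index_two {G : Type} [AddCommGroup G] (H : AddSubgroup G)
    (h : ∀ P Q : G, P ∉ H → Q ∉ H → P + Q ∈ H) : H.index = 1 ∨ H.index = 2 := by
  by_cases hT : ∃ T, T ∉ H
  · right
    obtain ⟨T, hT⟩ := hT
    rw [AddSubgroup.index_eq_two_iff]
    refine ⟨T, fun P => ?_⟩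
    by_cases hP : P ∈ H
    · right
      refine ⟨hP, fun h1 => hT ?_⟩
      have e : T = (P + T) - P := by abel
      rw [e]
      exact sub_mem h1 hP
    · left
      exact ⟨h P T hP hT, hP⟩
  · left
    push Not at hT
    rw [AddSubgroup.index_eq_one, eq_top_iff]
    exact fun P _ => hT P

theorem t3A {L : Type} [Field L] (v : Valuation L ℤᵐ⁰) {a m : L} (h3 : v 3 = exp (-1 : ℤ))
    (ha : a ^ 2 = 1 + 9 * m) (hm : v m ≤ 1) (H : AddSubgroup (Ea a).toAffine.Point)
    (hH : ∀ P, P ∈ H ↔ NonsingRed v (Ea a) P) : H.index = 1 ∨ H.index = 2 := by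
  have v3l : v (3 : L) < 1 := by rw [h3]; exact lt_one_iff.2 le_rfl
  have v2 : v (2 : L) = 1 := by
    have e : (2 : L) = -1 + 3 := by norm_num
    rw [e, Valuation.map_add_eq_of_lt_left v (by rw [Valuation.map_neg, map_one]; exact v3l),
      Valuation.map_neg, map_one]
  have v9 : v (9 * m) < 1 := by
    have e : 9 * m = 3 * (3 * m) := by ring
    rw [e, map_mul, map_mul]
    exact m2l v3l (mul_le_one' v3l.le hm)
  have hsing : ∀ {P : (Ea a).toAffine.Point} {x y : L}, Ata P x y → P ∉ H →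
      v (x - 1) ≤ exp (-1 : ℤ) ∧ v y ≤ exp (-1 : ℤ) := by
    intro P x y hA hP
    obtain ⟨h1, h2⟩ := (not_mem_iffA hH hA).1 hP
    have he := hA.eqn
    rw [map_mul, v2, one_mul] at h1
    have hx : v x ≤ 1 := by
      by_contra hc
      rw [not_le] at hc
      have hx0 : v x ≠ 0 := (lt_trans zero_lt_one hc).ne'
      rw [map_mul, h3, map_pow] at h2
      have h3 : log (exp (-1 : ℤ) * v x ^ 2) < 0 := by
        rw [← log_one, log_lt_log (mul_ne_zero exp_ne_zero (pow_ne_zero 2 hx0)) one_ne_zero]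
        exact h2
      have h4 : 0 < log (v x) := by
        rw [← log_one, log_lt_log one_ne_zero hx0]
        exact hc
      rw [log_mul exp_ne_zero (pow_ne_zero 2 hx0), log_exp, log_pow, nsmul_eq_mul] at h3
      push_cast at h3
      omega
    have hx1 : v (x - 1) < 1 := by
      apply pow_l three_ne_zero
      have e : (x - 1) ^ 3 = y ^ 2 + 9 * m - 3 * (x * (x - 1)) := by
        rw [he, ha]; ring
      rw [e]
      refine vsubl (vaddl ?_ v9) ?_
      · rw [map_pow]
        exact pow_lt_one₀ zero_le' h1 (by norm_num)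
      · rw [map_mul, map_mul]
        exact m2l v3l (mul_le_one' hx (vsub hx (by rw [map_one])))
    exact ⟨lt_one_iff.1 hx1, lt_one_iff.1 h1⟩
  have hx1 : ∀ {x : L}, v (x - 1) ≤ exp (-1 : ℤ) → v x = 1 := by
    intro x hx
    have e : x = 1 + (x - 1) := by ring
    rw [e, Valuation.map_add_eq_of_lt_left v (by
      rw [map_one]; exact lt_one_iff.2 hx), map_one]
  have hslope : ∀ {P : (Ea a).toAffine.Point} {l x x' y3 : L}, Ata P (l ^ 2 - x - x') y3 →
      1 ≤ v l → v (x - 1) ≤ exp (-1 : ℤ) → v (x' - 1) ≤ exp (-1 : ℤ) → P ∈ H := by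
    intro P l x x' y3 hA hl hx hx'
    by_contra hcon
    obtain ⟨h2, -⟩ := hsing hA hcon
    have e : l ^ 2 = (l ^ 2 - x - x' - 1) + (x - 1) + (x' - 1) + 3 := by ring
    have h3 : v (l ^ 2) < 1 := by
      rw [e]
      exact vaddl (vaddl (vaddl (lt_one_iff.2 h2) (lt_one_iff.2 hx)) (lt_one_iff.2 hx')) v3l
    rw [map_pow] at h3
    exact absurd h3 (not_lt.2 (one_le_pow₀ hl))
  refine index_two H fun P Q hP hQ => ?_
  obtain ⟨x, y, hA⟩ := not_mem_atA hP
  obtain ⟨x', y', hA'⟩ := not_mem_atA hQ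
  obtain ⟨hx, hy⟩ := hsing hA hP
  obtain ⟨hx', hy'⟩ := hsing hA' hQ
  have he := hA.eqn
  have he' := hA'.eqn
  by_cases hxx : x = x'
  · subst hxx
    have e1 : (y - y') * (y + y') = 0 := by linear_combination he - he'
    rcases mul_eq_zero.1 e1 with h | h
    · have h1 : y = y' := sub_eq_zero.1 h
      subst h1
      rw [← hA.ext hA']
      by_cases hy0 : 2 * y = 0
      · have h2 : -y = y := by linear_combination -hy0
        have h3 := hA.neg
        rw [h2] at h3
        have h4 : P = -P := hA.ext h3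
        have h5 : P + P = 0 := by
          nth_rewrite 2 [h4]
          exact add_neg_cancel P
        rw [h5]
        exact zero_mem _
      · obtain ⟨y3, h3'⟩ := hA.dbl hy0
        refine hslope h3' ?_ hx hx
        refine div_ge (k := -1) ?_ ?_ hy0
        · rw [map_mul, map_pow, hx1 hx, one_pow, mul_one, h3]
        · rw [map_mul, v2, one_mul]
          exact hy
    · have h1 : y = -y' := by linear_combination h
      rw [h1] at hA
      rw [hA.ext hA'.neg, neg_add_cancel]
      exact zero_mem _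
  · obtain ⟨y3, h3'⟩ := hA.add hA' hxx
    refine hslope h3' ?_ hx hx'
    have hxx0 : x - x' ≠ 0 := sub_ne_zero.2 hxx
    have vx : v x = 1 := hx1 hx
    have hxx' : v (x - x') ≤ exp (-1 : ℤ) := by
      have e : x - x' = (x - 1) - (x' - 1) := by ring
      rw [e]
      exact vsub hx hx'
    have hq : v (x ^ 2 + x * x' + x' ^ 2) = exp (-1 : ℤ) := by
      have e : x ^ 2 + x * x' + x' ^ 2 = 3 * x ^ 2 + (x - x') * ((x - x') - 3 * x) := by ring
      have h4 : v (3 * x ^ 2) = exp (-1 : ℤ) := by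
        rw [map_mul, map_pow, vx, one_pow, mul_one, h3]
      have h5 : v ((x - x') * ((x - x') - 3 * x)) < v (3 * x ^ 2) := by
        rw [h4]
        have h6 : v ((x - x') - 3 * x) ≤ exp (-1 : ℤ) := by
          refine vsub hxx' ?_
          rw [map_mul, vx, mul_one, h3]
        refine lt_of_le_of_lt (vmul hxx' h6) ?_
        rw [exp_lt_exp]
        norm_num
      rw [e, Valuation.map_add_eq_of_lt_left v h5, h4]
    have hs : v (y + y') ≤ exp (-1 : ℤ) := vadd hy hy'
    have hprod : (y - y') * (y + y') = (x - x') * (x ^ 2 + x * x' + x' ^ 2) := by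
      linear_combination he - he'
    have hs0 : y + y' ≠ 0 := by
      intro h0
      rw [h0, mul_zero] at hprod
      rcases mul_eq_zero.1 hprod.symm with h | h
      · exact hxx0 h
      · rw [h, map_zero] at hq
        exact exp_ne_zero hq.symm
    have e : (y - y') / (x - x') = (x ^ 2 + x * x' + x' ^ 2) / (y + y') := by
      rw [div_eq_div_iff hxx0 hs0, hprod]
      ring
    rw [e]
    exact div_ge hq hs hs0

end Pool.Agent.W2helper93.TQ
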