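import Mathlib
import Pool.Agent.W2helper24.TQ.Stm2
import Pool.Agent.R931.IR.RatPlace
import Pool.Agent.W2helper93.TQ.A9
import Pool.Agent.W2helper93.TQ.H5L

/-!
# Piece H5: minimality and the local indices of `y² = x³ - D²` over `ℚ`
-/

set_option autoImplicit false

namespace Pool.Agent.W2helper93.TQ

open NumberField IsDedekindDomain WithZero WeierstrassCurve
open Pool.Agent.Y696 (NonsingRed)
open Pool.Agent.W2helper24.TQ (DCls ED P_H5)
open scoped Classical

lemma ED_map (D : ℕ) {R S : Type} [CommRing R] [CommRing S] (f : R →+* S) :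
    (ED D R).map f = ED D S := by
  ext <;> simp [ED]

lemma ED_Δ (D : ℕ) (R : Type) [CommRing R] : (ED D R).Δ = -432 * (D : R) ^ 4 := by
  simp only [ED, WeierstrassCurve.Δ, WeierstrassCurve.b₂, WeierstrassCurve.b₄,
    WeierstrassCurve.b₆, WeierstrassCurve.b₈]
  ring

section min
open IsDiscreteValuationRing IsLocalRing IsDedekindDomain.HeightOneSpectrum
variable (R : Type) [CommRing R] [IsDomain R] [IsDiscreteValuationRing R] {L : Type}
  [Field L] [Algebra R L] [IsFractionRing R L]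

lemma isMinimal_of (W : WeierstrassCurve L) [hW : WeierstrassCurve.IsIntegral R W] (δ : R)
    (hδ : W.Δ = algebraMap R L δ) (h : ∀ u ∈ IsLocalRing.maximalIdeal R, ¬ u ^ 12 ∣ δ) :
    WeierstrassCurve.IsMinimal R W := by
  refine ⟨⟨by
    change WeierstrassCurve.IsIntegral R ((1 : WeierstrassCurve.VariableChange L) • W)
    rw [one_smul]
    infer_instance, ?_⟩⟩
  intro C hC _
  have hC' : WeierstrassCurve.IsIntegral R (C • W) := hC
  change WeierstrassCurve.valuation_Δ_aux R (C • W) ≤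
    WeierstrassCurve.valuation_Δ_aux R ((1 : WeierstrassCurve.VariableChange L) • W)
  rw [one_smul, ← Subtype.coe_le_coe, valuation_Δ_aux_eq_of_isIntegral,
    valuation_Δ_aux_eq_of_isIntegral, variableChange_Δ, map_mul]
  have hu0 : ((C.u : Lˣ) : L) ≠ 0 := C.u.ne_zero
  have huv : ((C.u⁻¹ : Lˣ) : L) * ((C.u : Lˣ) : L) = 1 := by simp
  have hle : valuation L (maximalIdeal R) ((C.u⁻¹ : Lˣ) : L) ≤ 1 := by
    by_contra hlt
    rw [not_le] at hlt
    have h1 : valuation L (maximalIdeal R) ((C.u : Lˣ) : L) < 1 := by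
      have h2 := congrArg (valuation L (maximalIdeal R)) huv
      rw [map_mul, map_one] at h2
      by_contra h3
      rw [not_lt] at h3
      exact absurd h2 (one_lt_mul_of_lt_of_le hlt h3).ne'
    obtain ⟨u₀, hu₀⟩ := exists_lift_of_le_one (A := R) (K := L) h1.le
    have hmem : u₀ ∈ IsLocalRing.maximalIdeal R := by
      rw [← hu₀] at h1
      exact (valuation_lt_one_iff_mem (K := L) (maximalIdeal R) u₀).1 h1
    obtain ⟨r, hr⟩ := WeierstrassCurve.Δ_integral_of_isIntegral R (C • W)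
    rw [variableChange_Δ] at hr
    refine h u₀ hmem ⟨r, ?_⟩
    apply IsFractionRing.injective R L
    rw [map_mul, map_pow, hr, hu₀, ← hδ]
    have h5 : ((C.u : Lˣ) : L) ^ 12 * (((C.u⁻¹ : Lˣ) : L)) ^ 12 = 1 := by
      rw [← mul_pow, mul_comm, huv, one_pow]
    linear_combination -W.Δ * h5
  calc valuation L (maximalIdeal R) (((C.u⁻¹ : Lˣ) : L) ^ 12) * valuation L (maximalIdeal R) W.Δ
      ≤ 1 * valuation L (maximalIdeal R) W.Δ := by
        rw [map_pow]
        gcongr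
        exact pow_le_one₀ zero_le hle
    _ = _ := one_mul _

end min

section val

variable {p : ℕ} {v : HeightOneSpectrum (𝓞 ℚ)}

lemma nat_mem_iff (hp : p.Prime) (hv : (p : 𝓞 ℚ) ∈ v.asIdeal) (z : 𝓞 ℚ) :
    z ∈ v.asIdeal ↔ (p : ℤ) ∣ Rat.ringOfIntegersEquiv z := by
  rw [Pool.Agent.R931.IR.asIdeal_eq hp hv, Ideal.mem_span_singleton,
    ← map_dvd_iff Rat.ringOfIntegersEquiv, map_natCast]

lemma val_nat (hp : p.Prime) (hv : (p : 𝓞 ℚ) ∈ v.asIdeal) {n k m : ℕ} (h : n = p ^ k * m)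
    (hm : ¬ p ∣ m) : Valued.v (n : v.adicCompletion ℚ) = exp (-(k : ℤ)) := by
  have h1 : (n : v.adicCompletion ℚ) = algebraMap ℚ (v.adicCompletion ℚ) (n : ℚ) :=
    (map_natCast (algebraMap ℚ (v.adicCompletion ℚ)) n).symm
  have h2 : (n : ℚ) = algebraMap (𝓞 ℚ) ℚ n := by rw [map_natCast]
  rw [h1, Pool.Agent.H723R3.valued_algebraMap, h2, HeightOneSpectrum.valuation_of_algebraMap, h]
  push_cast
  have hp0 : (p : 𝓞 ℚ) ≠ 0 := by exact_mod_cast hp.ne_zero
  have h3 : v.intValuation (p : 𝓞 ℚ) = exp (-1 : ℤ) :=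
    HeightOneSpectrum.intValuation_singleton v hp0 (Pool.Agent.R931.IR.asIdeal_eq hp hv)
  have h4 : v.intValuation (m : 𝓞 ℚ) = 1 := by
    rw [HeightOneSpectrum.intValuation_eq_one_iff, nat_mem_iff hp hv, map_natCast]
    exact_mod_cast hm
  rw [map_mul, map_pow, h3, h4, mul_one, ← exp_nsmul]
  congr 1
  rw [nsmul_eq_mul]
  ring

lemma ns_of (hp : p.Prime) (hv : (p : 𝓞 ℚ) ∈ v.asIdeal) (h4 : p % 4 = 3)
    (x : v.adicCompletion ℚ) (hx : Valued.v x ≤ 1) : Valued.v (x ^ 2 + 1) = 1 := by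
  have hle : Valued.v (x ^ 2 + 1) ≤ 1 := by
    refine Valuation.map_add_le _ ?_ (by rw [map_one])
    rw [map_pow]
    exact pow_le_one₀ zero_le hx
  by_contra hne
  have hlt : Valued.v (x ^ 2 + 1) < 1 := lt_of_le_of_ne hle hne
  obtain ⟨r, hr⟩ := Pool.Agent.H723R3.exists_approx_int (R := 𝓞 ℚ) (K := ℚ) v (ξ := x) hx 1
  rw [Units.val_one] at hr
  have hr1 : Valued.v (algebraMap (𝓞 ℚ) (v.adicCompletion ℚ) r) ≤ 1 := by
    have e : algebraMap (𝓞 ℚ) (v.adicCompletion ℚ) r =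
        (algebraMap (𝓞 ℚ) (v.adicCompletion ℚ) r - x) + x := by ring
    rw [e]
    exact Valuation.map_add_le _ hr.le hx
  have h5 : Valued.v (algebraMap (𝓞 ℚ) (v.adicCompletion ℚ) (r ^ 2 + 1)) < 1 := by
    have e : algebraMap (𝓞 ℚ) (v.adicCompletion ℚ) (r ^ 2 + 1) = (x ^ 2 + 1) +
        (algebraMap (𝓞 ℚ) (v.adicCompletion ℚ) r - x) *
          (algebraMap (𝓞 ℚ) (v.adicCompletion ℚ) r + x) := by
      rw [map_add, map_pow, map_one]
      ring
    rw [e]
    refine Valuation.map_add_lt _ hlt ?_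
    rw [map_mul]
    exact m2l hr (Valuation.map_add_le _ hr1 hx)
  have h6 : r ^ 2 + 1 ∈ v.asIdeal := by
    have e : algebraMap (𝓞 ℚ) (v.adicCompletion ℚ) (r ^ 2 + 1) =
        algebraMap ℚ (v.adicCompletion ℚ) (algebraMap (𝓞 ℚ) ℚ (r ^ 2 + 1)) :=
      IsScalarTower.algebraMap_apply (𝓞 ℚ) ℚ _ _
    rw [e, Pool.Agent.H723R3.valued_algebraMap] at h5
    exact (HeightOneSpectrum.valuation_lt_one_iff_mem v _).1 h5
  rw [nat_mem_iff hp hv, map_add, map_pow, map_one] at h6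
  have : Fact p.Prime := ⟨hp⟩
  refine ZMod.mod_four_ne_three_of_sq_eq_neg_one (p := p)
    (y := ((Rat.ringOfIntegersEquiv r : ℤ) : ZMod p)) ?_ h4
  have h7 := (ZMod.intCast_zmod_eq_zero_iff_dvd _ p).2 h6
  push_cast at h7
  linear_combination h7

/-- the kinds of places -/
lemma casesH {D : ℕ} (hD : DCls D) (v : HeightOneSpectrum (𝓞 ℚ)) :
    (Valued.v (2 : v.adicCompletion ℚ) = 1 ∧ Valued.v (3 : v.adicCompletion ℚ) = 1 ∧
      Valued.v (D : v.adicCompletion ℚ) = 1) ∨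
    (Valued.v (2 : v.adicCompletion ℚ) = exp (-1 : ℤ) ∧ Valued.v (3 : v.adicCompletion ℚ) = 1 ∧
      Valued.v (D : v.adicCompletion ℚ) = 1) ∨
    (Valued.v (2 : v.adicCompletion ℚ) = 1 ∧ Valued.v (3 : v.adicCompletion ℚ) = exp (-1 : ℤ) ∧
      Valued.v (D : v.adicCompletion ℚ) = 1 ∧
      ∃ m : v.adicCompletion ℚ, (D : v.adicCompletion ℚ) ^ 2 = 1 + 9 * m ∧ Valued.v m ≤ 1) ∨
    (Valued.v (2 : v.adicCompletion ℚ) = 1 ∧ Valued.v (3 : v.adicCompletion ℚ) = 1 ∧
      (Valued.v (D : v.adicCompletion ℚ) = exp (-1 : ℤ) ∨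
        Valued.v (D : v.adicCompletion ℚ) = exp (-2 : ℤ)) ∧
      ∀ x : v.adicCompletion ℚ, Valued.v x ≤ 1 → Valued.v (x ^ 2 + 1) = 1) := by
  obtain ⟨p, hp, hv⟩ := Pool.Agent.R931.IR.exists_prime v
  obtain ⟨hD0, hDp, hD9⟩ := hD
  have v1 : ∀ n : ℕ, ¬ p ∣ n → Valued.v (n : v.adicCompletion ℚ) = 1 := by
    intro n hn
    have := val_nat (k := 0) (m := n) hp hv (by rw [pow_zero, one_mul]) hn
    rw [this]
    rfl
  have e2 : ((2 : ℕ) : v.adicCompletion ℚ) = 2 := by norm_cast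
  have e3 : ((3 : ℕ) : v.adicCompletion ℚ) = 3 := by norm_cast
  have vp : Valued.v (p : v.adicCompletion ℚ) = exp (-1 : ℤ) := by
    have := val_nat (n := p) (k := 1) (m := 1) hp hv (by rw [pow_one, mul_one])
      (by intro h; exact hp.one_lt.ne' (Nat.dvd_one.1 h))
    rw [this]
    norm_num
  by_cases h2 : p = 2
  · subst h2
    right; left
    refine ⟨by rw [← e2]; exact vp, by rw [← e3]; exact v1 3 (by norm_num), v1 D ?_⟩
    intro h
    have := (hDp 2 hp h).1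
    norm_num at this
  by_cases h3 : p = 3
  · subst h3
    right; right; left
    refine ⟨by rw [← e2]; exact v1 2 (by norm_num), by rw [← e3]; exact vp, v1 D ?_, ?_⟩
    · intro h
      have := (hDp 3 hp h).1
      norm_num at this
    · have h9 : D ^ 2 % 9 = 1 := by
        rcases hD9 with h | h <;> simp [Nat.pow_mod, h]
      obtain ⟨m, hm⟩ : ∃ m : ℕ, D ^ 2 = 1 + 9 * m := ⟨D ^ 2 / 9, by omega⟩
      have hm' : (D : v.adicCompletion ℚ) ^ 2 = 1 + 9 * (m : v.adicCompletion ℚ) := by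
        have := congrArg (Nat.cast (R := v.adicCompletion ℚ)) hm
        push_cast at this
        exact this
      refine ⟨m, hm', ?_⟩
      have h5 : (m : v.adicCompletion ℚ) = algebraMap ℚ (v.adicCompletion ℚ) (m : ℚ) :=
        (map_natCast (algebraMap ℚ (v.adicCompletion ℚ)) m).symm
      have h6 : (m : ℚ) = algebraMap (𝓞 ℚ) ℚ m := by rw [map_natCast]
      rw [h5, Pool.Agent.H723R3.valued_algebraMap, h6]
      exact HeightOneSpectrum.valuation_le_one v _
  have hp2 : Valued.v (2 : v.adicCompletion ℚ) = 1 := by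
    rw [← e2]
    exact v1 2 fun h => h2 ((Nat.prime_dvd_prime_iff_eq hp Nat.prime_two).1 h)
  have hp3 : Valued.v (3 : v.adicCompletion ℚ) = 1 := by
    rw [← e3]
    exact v1 3 fun h => h3 ((Nat.prime_dvd_prime_iff_eq hp Nat.prime_three).1 h)
  by_cases hpD : p ∣ D
  · right; right; right
    obtain ⟨h12, hp3'⟩ := hDp p hp hpD
    refine ⟨hp2, hp3, ?_, ns_of hp hv (by omega)⟩
    obtain ⟨m, hm⟩ := hpD
    by_cases hpm : p ∣ m
    · right
      obtain ⟨m', hm'⟩ := hpm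
      have := val_nat (n := D) (k := 2) (m := m') hp hv (by rw [hm, hm']; ring) (by
        rintro ⟨m'', hm''⟩
        apply hp3'
        exact ⟨m'', by rw [hm, hm', hm'']; ring⟩)
      rw [this]
      norm_num
    · left
      have := val_nat (n := D) (k := 1) (m := m) hp hv (by rw [hm]; ring) hpm
      rw [this]
      norm_num
  · left
    exact ⟨hp2, hp3, v1 D hpD⟩

theorem min_allH {D : ℕ} (hD : DCls D) (v : HeightOneSpectrum (𝓞 ℚ)) :
    WeierstrassCurve.IsMinimal (v.adicCompletionIntegers ℚ)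
      ((ED D ℚ).baseChange (v.adicCompletion ℚ)) := by
  have hbc : (ED D ℚ).baseChange (v.adicCompletion ℚ) = ED D (v.adicCompletion ℚ) := ED_map D _
  rw [hbc]
  have hint : WeierstrassCurve.IsIntegral (v.adicCompletionIntegers ℚ)
      (ED D (v.adicCompletion ℚ)) :=
    ⟨⟨ED D _, (ED_map D (algebraMap (v.adicCompletionIntegers ℚ) (v.adicCompletion ℚ))).symm⟩⟩
  refine isMinimal_of _ _ (-432 * (D : v.adicCompletionIntegers ℚ) ^ 4) ?_ ?_
  · rw [ED_Δ, map_mul, map_neg, map_pow, map_ofNat, map_natCast]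
  rintro u hu ⟨r, hr⟩
  have h1 : Valued.v (u : v.adicCompletion ℚ) < 1 := (Pool.Agent.W189.NF.mem_max_iff v u).1 hu
  have h2 : Valued.v (u : v.adicCompletion ℚ) ≤ exp (-1 : ℤ) := lt_one_iff.1 h1
  have h3 : Valued.v (r : v.adicCompletion ℚ) ≤ 1 := r.2
  have h4 : -432 * (D : v.adicCompletion ℚ) ^ 4 =
      (u : v.adicCompletion ℚ) ^ 12 * (r : v.adicCompletion ℚ) := by
    have := congrArg (algebraMap (v.adicCompletionIntegers ℚ) (v.adicCompletion ℚ)) hr
    rw [map_mul, map_mul, map_pow, map_pow, map_neg, map_ofNat, map_natCast] at this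
    exact this
  have h5 : Valued.v (-432 * (D : v.adicCompletion ℚ) ^ 4) ≤ exp (-12 : ℤ) := by
    rw [h4, map_mul, map_pow]
    calc _ ≤ (exp (-1 : ℤ)) ^ 12 * 1 := by gcongr
      _ = exp (-12 : ℤ) := by rw [mul_one, ← exp_nsmul]; rfl
  have e : -432 * (D : v.adicCompletion ℚ) ^ 4 =
      -(2 ^ 4 * 3 ^ 3 * (D : v.adicCompletion ℚ) ^ 4) := by norm_num
  have h6 : (exp (-8 : ℤ) : ℤᵐ⁰) ≤ Valued.v (-432 * (D : v.adicCompletion ℚ) ^ 4) := by
    rw [e, Valuation.map_neg, map_mul, map_mul, map_pow, map_pow, map_pow]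
    rcases casesH hD v with ⟨a, b, c⟩ | ⟨a, b, c⟩ | ⟨a, b, c, -⟩ | ⟨a, b, c | c, -⟩
    · rw [a, b, c, one_pow, one_pow, one_mul, mul_one, ← exp_zero, exp_le_exp]
      norm_num
    · rw [a, b, c, one_pow, one_pow, mul_one, mul_one, ← exp_nsmul, exp_le_exp]
      norm_num
    · rw [a, b, c, one_pow, mul_one, one_mul, ← exp_nsmul, exp_le_exp]
      norm_num
    · rw [a, b, c, one_pow, one_pow, one_mul, one_mul, ← exp_nsmul, exp_le_exp]
      norm_num
    · rw [a, b, c, one_pow, one_pow, one_mul, one_mul, ← exp_nsmul, exp_le_exp]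
      norm_num
  have h7 := h6.trans h5
  rw [exp_le_exp] at h7
  norm_num at h7

theorem tam_allH {D : ℕ} (hD : DCls D) (v : HeightOneSpectrum (𝓞 ℚ)) :
    ∃ H : AddSubgroup ((ED D ℚ).baseChange (v.adicCompletion ℚ)).toAffine.Point,
      (∀ P, P ∈ H ↔ NonsingRed Valued.v ((ED D ℚ).baseChange (v.adicCompletion ℚ)) P) ∧
      H.index ≠ 0 ∧ ¬ 3 ∣ H.index := by
  have hbc : (ED D ℚ).baseChange (v.adicCompletion ℚ) = Ea (D : v.adicCompletion ℚ) := ED_map D _
  rw [hbc]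
  rcases casesH hD v with ⟨a, b, c⟩ | ⟨a, b, c⟩ | ⟨a, b, c, m, hm, hm1⟩ | ⟨a, b, c, d⟩
  · exact ⟨⊤, fun P => ⟨fun _ => tgA _ a b c P, fun _ => trivial⟩, by
      rw [AddSubgroup.index_top]; norm_num⟩
  · exact ⟨⊤, fun P => ⟨fun _ => t2A _ a b c P, fun _ => trivial⟩, by
      rw [AddSubgroup.index_top]; norm_num⟩
  · obtain ⟨H, hH⟩ := Pool.Agent.Y891.CTK.sub_of Valued.v (Ea (D : v.adicCompletion ℚ))
      (by rw [map_zero]; exact zero_le) (by rw [map_zero]; exact zero_le)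
      (by rw [map_zero]; exact zero_le) (by rw [map_zero]; exact zero_le)
      (by rw [Valuation.map_neg, map_pow, c, one_pow])
    refine ⟨H, hH, ?_⟩
    rcases t3A Valued.v b hm hm1 H hH with h | h <;> rw [h] <;> norm_num
  · exact ⟨⊤, fun P => ⟨fun _ => tpA _ a b c d P, fun _ => trivial⟩, by
      rw [AddSubgroup.index_top]; norm_num⟩

end val

/-- **PIECE H5** -/
theorem pieceH5 : P_H5 := by
  intro D hD v
  exact ⟨min_allH hD v, tam_allH hD v⟩

end Pool.Agent.W2helper93.TQ
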